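import Pool.Agent.R171.YG.Count
import Pool.Agent.R711.YG.A
import Pool.Agent.R74.YG.B
import Pool.Agent.R868.YG.D

set_option autoImplicit false

open Pool.Agent.R171.YG

namespace Pool.Agent.Results.MP_d9fc2a_co.ThetaCubic

/-- Every simple polygon with `n` vertices has at most `1200 n ^ 3` distinct three-leaf gluing
trees. -/
theorem upper {n : ℕ} (P : Polygon n) : P.types.ncard ≤ 1200 * n ^ 3 := by
  obtain ⟨S, hS, hc⟩ := card_types_le Pool.Agent.R868.YG.stmtD1 Pool.Agent.R868.YG.stmtD2 P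
  calc P.types.ncard ≤ (S : Set (Typ n)).ncard := Set.ncard_le_ncard hS S.finite_toSet
    _ = S.card := Set.ncard_coe_finset S
    _ ≤ 1200 * n ^ 3 := hc

theorem f_le (n : ℕ) : f n ≤ 1200 * n ^ 3 := by
  unfold f
  apply csSup_le'
  rintro k ⟨P, rfl⟩
  exact upper P

theorem le_f {n : ℕ} (P : Polygon n) : P.types.ncard ≤ f n := by
  unfold f
  apply le_csSup
  · refine ⟨1200 * n ^ 3, ?_⟩
    rintro k ⟨P, rfl⟩
    exact upper P
  · exact ⟨P, rfl⟩

/-- **The order of growth of the maximum number of three-leaf gluing trees.**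
`f n`, the maximum number of combinatorially distinct three-leaf gluing trees (Y gluings that
satisfy Alexandrov's conditions) of a simple polygon with `n` vertices, is of the exact order
`n ^ 3`.  In particular `f n = o(n ^ 4)`. -/
theorem result :
    (∀ n : ℕ, 4 ≤ n → (n : ℝ) ^ 3 / 216 ≤ f n) ∧ (∀ n : ℕ, (f n : ℝ) ≤ 1200 * (n : ℝ) ^ 3) ∧
      (fun n : ℕ => (f n : ℝ)) =Θ[Filter.atTop] (fun n : ℕ => (n : ℝ) ^ 3) := by
  have hlow : ∀ n : ℕ, 4 ≤ n → (n : ℝ) ^ 3 / 216 ≤ f n := by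
    intro n hn
    -- m = (n - 1) / 3
    have hm1 : 1 ≤ (n - 1) / 3 := by omega
    have hm2 : 3 * ((n - 1) / 3) + 1 ≤ n := by omega
    have hm3 : n ≤ 6 * ((n - 1) / 3) := by omega
    obtain ⟨P, hP⟩ := stmtB Pool.Agent.R711.YG.stmtA n ((n - 1) / 3) hm1 hm2
    have h1 : (((n - 1) / 3 : ℕ) : ℝ) ^ 3 ≤ f n := by exact_mod_cast hP.trans (le_f P)
    have h2 : (n : ℝ) ≤ 6 * (((n - 1) / 3 : ℕ) : ℝ) := by exact_mod_cast hm3
    have h3 : (n : ℝ) ^ 3 ≤ (6 * (((n - 1) / 3 : ℕ) : ℝ)) ^ 3 :=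
      pow_le_pow_left₀ (by positivity) h2 3
    have h4 : (6 * (((n - 1) / 3 : ℕ) : ℝ)) ^ 3 = 216 * (((n - 1) / 3 : ℕ) : ℝ) ^ 3 := by ring
    rw [h4] at h3
    linarith
  have hup : ∀ n : ℕ, (f n : ℝ) ≤ 1200 * (n : ℝ) ^ 3 := by
    intro n
    exact_mod_cast f_le n
  refine ⟨hlow, hup, ?_, ?_⟩
  · refine Asymptotics.IsBigO.of_bound 1200 (Filter.Eventually.of_forall fun n => ?_)
    rw [Real.norm_of_nonneg (by positivity), Real.norm_of_nonneg (by positivity)]
    exact hup n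
  · refine Asymptotics.IsBigO.of_bound 216 ?_
    filter_upwards [Filter.eventually_ge_atTop 4] with n hn
    rw [Real.norm_of_nonneg (by positivity), Real.norm_of_nonneg (by positivity)]
    have := hlow n hn
    linarith

end Pool.Agent.Results.MP_d9fc2a_co.ThetaCubic
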